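import Pool.Agent.Helper69_SER.Stmts
import Pool.Agent.Helper69_SER.Basic

/-!
# (ELIM) the elimination theorem (squad SER)
-/

set_option autoImplicit false

namespace SER

namespace H87E

open Function

section aux

variable {R : Type} [Ring R]

/-- if a finite sum of maps from a nonzero uniserial module is injective then one of them is. -/
theorem exists_inj_of_sum {X : Type} [AddCommGroup X] [Module R X] {Y : Type} [AddCommGroup Y]
    [Module R Y] (hX : Uni R X) {J : Type} (F : Finset J) (f : J → X →ₗ[R] Y)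
    (h : Injective (⇑(∑ k ∈ F, f k : X →ₗ[R] Y))) : ∃ k ∈ F, Injective (f k) := by
  classical
  induction F using Finset.induction_on with
  | empty =>
    exfalso
    have := hX.1
    obtain ⟨x, hx⟩ := exists_ne (0 : X)
    exact hx (h (by simp))
  | insert a s ha ih =>
    rw [Finset.sum_insert ha] at h
    rcases inj_or_of_add hX.2 h with h1 | h1
    · exact ⟨a, Finset.mem_insert_self _ _, h1⟩
    · obtain ⟨k, hk, hk'⟩ := ih h1
      exact ⟨k, Finset.mem_insert_of_mem hk, hk'⟩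

/-- if a finite sum of maps to a nonzero uniserial module is surjective then one of them is. -/
theorem exists_surj_of_sum {X : Type} [AddCommGroup X] [Module R X] {Y : Type} [AddCommGroup Y]
    [Module R Y] (hY : Uni R Y) {J : Type} (F : Finset J) (f : J → X →ₗ[R] Y)
    (h : Surjective (⇑(∑ k ∈ F, f k : X →ₗ[R] Y))) : ∃ k ∈ F, Surjective (f k) := by
  classical
  induction F using Finset.induction_on with
  | empty =>
    exfalso
    have := hY.1
    obtain ⟨y, hy⟩ := exists_ne (0 : Y)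
    obtain ⟨x, hx⟩ := h y
    apply hy
    rw [← hx]
    simp
  | insert a s ha ih =>
    rw [Finset.sum_insert ha] at h
    rcases surj_or_of_add hY.2 h with h1 | h1
    · exact ⟨a, Finset.mem_insert_self _ _, h1⟩
    · obtain ⟨k, hk, hk'⟩ := ih h1
      exact ⟨k, Finset.mem_insert_of_mem hk, hk'⟩

/-- the three cases, combination on the left. -/
theorem exists_bij_left {V : Type} [AddCommGroup V] [Module R V] (hV : Chain R V)
    {A : Type} [AddCommGroup A] [Module R A] {B : Type} [AddCommGroup B] [Module R B]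
    (ya : V →ₗ[R] A) (yb : V →ₗ[R] B) (l : A →ₗ[R] V) (p : B →ₗ[R] V)
    (h1 : Injective (l ∘ₗ ya)) (h2 : Surjective (p ∘ₗ yb)) :
    ∃ (l' : A →ₗ[R] V) (p' : B →ₗ[R] V), Bijective (l' ∘ₗ ya + p' ∘ₗ yb) := by
  by_cases h3 : Surjective (l ∘ₗ ya)
  · exact ⟨l, 0, by rw [LinearMap.zero_comp, add_zero]; exact ⟨h1, h3⟩⟩
  by_cases h4 : Injective (p ∘ₗ yb)
  · exact ⟨0, p, by rw [LinearMap.zero_comp, zero_add]; exact ⟨h4, h2⟩⟩
  exact ⟨l, p, bij_add hV hV h1 h3 h2 h4⟩

/-- `X` embeds in `V` and `V` is an image of `Y`. -/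
theorem sq_of_inj_surj {X : Type} [AddCommGroup X] [Module R X] {Y : Type} [AddCommGroup Y]
    [Module R Y] {V : Type} [AddCommGroup V] [Module R V] (f : X →ₗ[R] V) (g : Y →ₗ[R] V)
    (hf : Injective f) (hg : Surjective g) : Sq R X Y :=
  Sq.trans (Sq.of_inj f hf) (Sq.of_surj g hg)

/-- `X` is an image of `V` and `V` embeds in `Y`. -/
theorem sq_of_surj_inj {X : Type} [AddCommGroup X] [Module R X] {Y : Type} [AddCommGroup Y]
    [Module R Y] {V : Type} [AddCommGroup V] [Module R V] (f : V →ₗ[R] X) (g : V →ₗ[R] Y)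
    (hf : Surjective f) (hg : Injective g) : Sq R X Y :=
  Sq.trans (Sq.of_surj f hf) (Sq.of_inj g hg)

end aux

/-- the step at a Z-type slot -/
theorem stepZ (h1 : H1Stmt) (l1 : L1Stmt) (redZ : RedZStmt) (R : Type) [Ring R] (N : Type)
    [AddCommGroup N] [Module R N] (hN : NoUni R N) (n : ℕ) (IH : ElimAt R N n)
    (big : ∀ Y : ModuleCat.{0} R, Y → Prop) (hbig : Big R big)
    (P : Type) [AddCommGroup P] [Module R P] (J : Type) [Fintype J] (X : J → ModuleCat.{0} R)
    (hcard : Fintype.card J = n + 1) (hU : ∀ k, Uni R (X k)) (hP3 : P3 R N big J X)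
    (d : Dec R P J X) (E : P →ₗ[R] P) (hE : E ∈ HI R N P P) (x : P) (hx : E x = x)
    (k0 : J) (hk0 : big (X k0) (d.pr k0 x)) (j : J) (hj : ZT R N (X j)) :
    ∃ i, i ≠ j ∧ Sq R (X j) (X i) ∧ (ZT R N (X i) → Sq R (X i) (X j) → False) := by
  classical
  have hred := redZ R N hN n IH big hbig P J X hcard hU hP3 d E hE x hx j hj
  -- the column of `1 - E`
  let C : X j →ₗ[R] P := d.inc j - E ∘ₗ d.inc j
  let V : Submodule R P := LinearMap.range C
  let p : X j →ₗ[R] V := C.rangeRestrict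
  have hp : Surjective p := C.surjective_rangeRestrict
  let Y : V →ₗ[R] P := V.subtype
  have hY : Injective Y := V.injective_subtype
  have hCp : ∀ v, d.inc j v - E (d.inc j v) = Y (p v) := fun v => rfl
  have hEjj : d.pr j ∘ₗ E ∘ₗ d.inc j ∈ HI R N (X j) (X j) :=
    HI.comp_left (HI.comp_right hE _) _
  obtain ⟨f, hf, hfi⟩ := hj
  have hEns : ¬ Surjective (d.pr j ∘ₗ E ∘ₗ d.inc j) :=
    h1 R N hN (X j) (hU j) f hf _ hEjj hfi
  have hys : Surjective (d.pr j ∘ₗ Y) := by
    have hs : Surjective ((d.pr j ∘ₗ Y) ∘ₗ p + d.pr j ∘ₗ E ∘ₗ d.inc j) := by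
      have : (d.pr j ∘ₗ Y) ∘ₗ p + d.pr j ∘ₗ E ∘ₗ d.inc j = LinearMap.id := by
        ext v
        show d.pr j (d.inc j v - E (d.inc j v)) + d.pr j (E (d.inc j v)) = v
        rw [map_sub, sub_add_cancel, d.pr_inc]
      rw [this]; exact surjective_id
    rcases surj_or_of_add (hU j).2 hs with h | h
    · exact Surjective.of_comp (g := p) h
    · exact absurd h hEns
  have hVU : Uni R V := by
    refine ⟨?_, Chain.of_surj (hU j).2 p hp⟩
    have := (hU j).1
    exact hys.nontrivial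
  -- an injective row
  obtain ⟨i, -, hi⟩ := exists_inj_of_sum hVU Finset.univ (fun k => d.inc k ∘ₗ d.pr k ∘ₗ Y) (by
    have : (∑ k, d.inc k ∘ₗ d.pr k ∘ₗ Y) = Y := by
      ext v
      rw [LinearMap.sum_apply]
      exact d.sum (Y v)
    rw [this]; exact hY)
  have hyi : Injective (d.pr i ∘ₗ Y) := Injective.of_comp (f := d.inc i) hi
  refine ⟨i, ?_, sq_of_surj_inj _ _ hys hyi, ?_⟩
  · rintro rfl
    let y : V ≃ₗ[R] X i := LinearEquiv.ofBijective (d.pr i ∘ₗ Y) ⟨hyi, hys⟩
    have hVZ : ZT R N V := ZT.transfer ⟨f, hf, hfi⟩ y.toLinearMap y.symm.toLinearMap y.injective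
      y.symm.injective
    exact hred V hVU hVZ p Y (y.symm.toLinearMap ∘ₗ d.pr i) hp hCp
      (fun v => y.symm_apply_apply v) k0 hk0
  · intro hZi hsq
    obtain ⟨l, hl⟩ := l1 R V (X i) (X j) hVU (hU i) (hU j) hsq _ _ hyi hys
    obtain ⟨l', p', hu⟩ := exists_bij_left hVU.2 (d.pr i ∘ₗ Y) (d.pr j ∘ₗ Y) l p
      (hl.comp hyi) (hp.comp hys)
    let u : V ≃ₗ[R] V := LinearEquiv.ofBijective _ hu
    have hVZ : ZT R N V := ZT.transfer hZi (d.pr i ∘ₗ Y) l hyi hl
    exact hred V hVU hVZ p Y (u.symm.toLinearMap ∘ₗ (l' ∘ₗ d.pr i + p' ∘ₗ d.pr j)) hp hCp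
      (fun v => u.symm_apply_apply v) k0 hk0

/-- the step at a slot which is not Z-type -/
theorem stepN (redND : RedNDStmt) (redNM : RedNMStmt) (R : Type) [Ring R] (N : Type)
    [AddCommGroup N] [Module R N] (n : ℕ) (IH : ElimAt R N n)
    (big : ∀ Y : ModuleCat.{0} R, Y → Prop) (hbig : Big R big)
    (P : Type) [AddCommGroup P] [Module R P] (J : Type) [Fintype J] (X : J → ModuleCat.{0} R)
    (hcard : Fintype.card J = n + 1) (hU : ∀ k, Uni R (X k)) (hP3 : P3 R N big J X)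
    (d : Dec R P J X) (E : P →ₗ[R] P) (hE : E ∈ HI R N P P) (x : P) (hx : E x = x)
    (k0 : J) (hk0 : big (X k0) (d.pr k0 x)) (j : J) (hj : ¬ ZT R N (X j)) :
    (∃ i, i ≠ j ∧ Sq R (X j) (X i) ∧ (¬ ZT R N (X i) → Sq R (X i) (X j) → False)) ∧
      ∃ g ∈ HI R N (X j) (X j), Surjective g := by
  classical
  let C : P →ₗ[R] X j := d.pr j - d.pr j ∘ₗ E
  let V : Submodule R (X j) := LinearMap.range C
  let z : P →ₗ[R] V := C.rangeRestrict
  have hz : Surjective z := C.surjective_rangeRestrict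
  have hzx : z x = 0 := by
    apply Subtype.ext
    show d.pr j x - d.pr j (E x) = 0
    rw [hx, sub_self]
  have hEjj : d.pr j ∘ₗ E ∘ₗ d.inc j ∈ HI R N (X j) (X j) :=
    HI.comp_left (HI.comp_right hE _) _
  have hsum : V.subtype ∘ₗ (z ∘ₗ d.inc j) + d.pr j ∘ₗ E ∘ₗ d.inc j = LinearMap.id := by
    ext v
    show d.pr j (d.inc j v) - d.pr j (E (d.inc j v)) + d.pr j (E (d.inc j v)) = v
    rw [sub_add_cancel, d.pr_inc]
  have hzj : Injective (z ∘ₗ d.inc j) := by
    have hs : Injective (V.subtype ∘ₗ (z ∘ₗ d.inc j) + d.pr j ∘ₗ E ∘ₗ d.inc j) := by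
      rw [hsum]; exact injective_id
    rcases inj_or_of_add (hU j).2 hs with h | h
    · exact Injective.of_comp (f := V.subtype) h
    · exact absurd ⟨_, hEjj, h⟩ hj
  have hVU : Uni R V := by
    refine ⟨?_, Chain.of_inj (hU j).2 V.subtype V.injective_subtype⟩
    have := (hU j).1
    exact hzj.nontrivial
  have hzns : ¬ Surjective (z ∘ₗ d.inc j) := fun h =>
    redND R N n IH big hbig P J X hcard hU hP3 d E hE x hx j V z hzx ⟨hzj, h⟩ k0 hk0
  constructor
  · obtain ⟨i, -, hi⟩ := exists_surj_of_sum hVU Finset.univ (fun k => z ∘ₗ d.inc k ∘ₗ d.pr k) (by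
      have : (∑ k, z ∘ₗ d.inc k ∘ₗ d.pr k) = z := by
        ext v
        rw [LinearMap.sum_apply]
        show ((∑ k, z (d.inc k (d.pr k v)) : V) : X j) = _
        rw [← map_sum, d.sum]
      rw [this]; exact hz)
    have hzi : Surjective (z ∘ₗ d.inc i) := Surjective.of_comp (g := d.pr i) hi
    have hij : i ≠ j := by
      rintro rfl
      exact hzns hzi
    refine ⟨i, hij, sq_of_inj_surj _ _ hzj hzi, ?_⟩
    intro hnz hsq
    exact redNM R N n IH big hbig P J X hcard hU hP3 d E hE x hx i j hij hnz hsq V hVU z hzx hzi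
      hzj ⟨V.subtype, V.injective_subtype⟩ k0 hk0
  · refine ⟨_, hEjj, ?_⟩
    have hs : Surjective (V.subtype ∘ₗ (z ∘ₗ d.inc j) + d.pr j ∘ₗ E ∘ₗ d.inc j) := by
      rw [hsum]; exact surjective_id
    rcases surj_or_of_add (hU j).2 hs with h | h
    · exfalso
      apply hzns
      intro v
      obtain ⟨y, hy⟩ := h (v : X j)
      exact ⟨y, Subtype.ext hy⟩
    · exact h

/-- (ELIM) -/
theorem elim (h1 : H1Stmt) (cross : CrossStmt) (l1 : L1Stmt) (redZ : RedZStmt)
    (redND : RedNDStmt) (redNM : RedNMStmt) (cyc : CycStmt) : ElimStmt := by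
  classical
  intro R _ N _ _ hN n
  induction n with
  | zero =>
    intro big hbig P _ _ J _ X hcard hU hP3 d E hE x hx k
    have : IsEmpty J := Fintype.card_eq_zero_iff.mp hcard
    exact isEmptyElim k
  | succ n IH =>
    intro big hbig P _ _ J _ X hcard hU hP3 d E hE x hx k0 hk0
    have hA := stepZ h1 l1 redZ R N hN n IH big hbig P J X hcard hU hP3 d E hE x hx k0 hk0
    have hB := stepN redND redNM R N n IH big hbig P J X hcard hU hP3 d E hE x hx k0 hk0
    have hall : ∀ j, ∃ i, i ≠ j ∧ Sq R (X j) (X i) ∧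
        ((ZT R N (X j) ↔ ZT R N (X i)) → Sq R (X i) (X j) → False) := by
      intro j
      by_cases hj : ZT R N (X j)
      · obtain ⟨i, hij, hsq, hi⟩ := hA j hj
        exact ⟨i, hij, hsq, fun h => hi (h.mp hj)⟩
      · obtain ⟨⟨i, hij, hsq, hi⟩, -⟩ := hB j hj
        exact ⟨i, hij, hsq, fun h => hi (fun h' => hj (h.mpr h'))⟩
    choose next hne hsq hno using hall
    obtain ⟨a, ha⟩ := cyc J next (fun a b => Sq R (X a) (X b)) k0 hne
      (fun a b c h h' => Sq.trans h h') hsq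
    have hmixed : ∀ s t : J, ZT R N (X s) → ¬ ZT R N (X t) → Sq R (X s) (X t) →
        Sq R (X t) (X s) → False := by
      intro s t hs ht hst hts
      obtain ⟨W, hW, ⟨f1, hf1⟩, ⟨f2, hf2⟩, ⟨f3, hf3⟩, ⟨f4, hf4⟩⟩ :=
        cross R (X s) (X t) (hU s) (hU t) hst hts
      obtain ⟨f, hf, hfi⟩ := hs
      obtain ⟨-, g, hg, hgs⟩ := hB t ht
      exact h1 R N hN W hW (f2 ∘ₗ f ∘ₗ f1) (HI.comp_left (HI.comp_right hf _) _)
        (f4.comp (g ∘ₗ f3)) (HI.comp_left (HI.comp_right hg _) _)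
        (hf2.comp (hfi.comp hf1)) (hf4.comp (hgs.comp hf3))
    by_cases h2 : ZT R N (X a) <;> by_cases h3 : ZT R N (X (next a))
    · exact hno a ⟨fun _ => h3, fun _ => h2⟩ ha
    · exact hmixed a (next a) h2 h3 (hsq a) ha
    · exact hmixed (next a) a h3 h2 ha (hsq a)
    · exact hno a ⟨fun h => absurd h h2, fun h => absurd h h3⟩ ha

end H87E

end SER
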