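import Pool.Agent.Helper69_SER.Stmts

/-!
# (REDNM) the mutual reduction for two slots which are not Z-type (squad SER)
-/

set_option autoImplicit false

namespace SER

namespace H87

section basics

variable {R : Type} [Ring R]

theorem HI_left {N : Type} [AddCommGroup N] [Module R N] {X : Type} [AddCommGroup X] [Module R X]
    {Y : Type} [AddCommGroup Y] [Module R Y] {Z : Type} [AddCommGroup Z] [Module R Z]
    {f : X →ₗ[R] Y} (hf : f ∈ HI R N X Y) (g : Y →ₗ[R] Z) : g ∘ₗ f ∈ HI R N X Z := by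
  refine AddSubgroup.closure_induction (p := fun f _ => g ∘ₗ f ∈ HI R N X Z) ?_ ?_ ?_ ?_ hf
  · rintro _ ⟨α, β, rfl⟩
    exact AddSubgroup.subset_closure ⟨α, g ∘ₗ β, by rw [LinearMap.comp_assoc]⟩
  · rw [LinearMap.comp_zero]; exact AddSubgroup.zero_mem _
  · intro a b _ _ ha hb
    rw [LinearMap.comp_add]; exact AddSubgroup.add_mem _ ha hb
  · intro a _ ha
    rw [LinearMap.comp_neg]; exact AddSubgroup.neg_mem _ ha

theorem HI_right {N : Type} [AddCommGroup N] [Module R N] {X : Type} [AddCommGroup X] [Module R X]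
    {Y : Type} [AddCommGroup Y] [Module R Y] {Z : Type} [AddCommGroup Z] [Module R Z]
    {f : X →ₗ[R] Y} (hf : f ∈ HI R N X Y) (g : Z →ₗ[R] X) : f ∘ₗ g ∈ HI R N Z Y := by
  refine AddSubgroup.closure_induction (p := fun f _ => f ∘ₗ g ∈ HI R N Z Y) ?_ ?_ ?_ ?_ hf
  · rintro _ ⟨α, β, rfl⟩
    exact AddSubgroup.subset_closure ⟨α ∘ₗ g, β, by rw [LinearMap.comp_assoc]⟩
  · rw [LinearMap.zero_comp]; exact AddSubgroup.zero_mem _
  · intro a b _ _ ha hb
    rw [LinearMap.add_comp]; exact AddSubgroup.add_mem _ ha hb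
  · intro a _ ha
    rw [LinearMap.neg_comp]; exact AddSubgroup.neg_mem _ ha

theorem inj_of_add {X : Type} [AddCommGroup X] [Module R X] {Y : Type} [AddCommGroup Y]
    [Module R Y] (hX : Chain R X) {f g : X →ₗ[R] Y} (h : Function.Injective (f + g)) :
    Function.Injective f ∨ Function.Injective g := by
  rcases hX (LinearMap.ker f) (LinearMap.ker g) with hk | hk
  · left
    rw [← LinearMap.ker_eq_bot, eq_bot_iff]
    intro x hx
    have h1 : f x = 0 := hx
    have h2 : g x = 0 := hk hx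
    rw [Submodule.mem_bot]
    apply h
    simp [h1, h2]
  · right
    rw [← LinearMap.ker_eq_bot, eq_bot_iff]
    intro x hx
    have h1 : g x = 0 := hx
    have h2 : f x = 0 := hk hx
    rw [Submodule.mem_bot]
    apply h
    simp [h1, h2]

theorem surj_of_add {X : Type} [AddCommGroup X] [Module R X] {Y : Type} [AddCommGroup Y]
    [Module R Y] (hY : Chain R Y) {f g : X →ₗ[R] Y} (h : Function.Surjective (f + g)) :
    Function.Surjective f ∨ Function.Surjective g := by
  rcases hY (LinearMap.range f) (LinearMap.range g) with hk | hk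
  · right
    rw [← LinearMap.range_eq_top, eq_top_iff]
    intro y _
    obtain ⟨x, hx⟩ := h y
    rw [← hx]
    exact add_mem (hk ⟨x, rfl⟩) ⟨x, rfl⟩
  · left
    rw [← LinearMap.range_eq_top, eq_top_iff]
    intro y _
    obtain ⟨x, hx⟩ := h y
    rw [← hx]
    exact add_mem ⟨x, rfl⟩ (hk ⟨x, rfl⟩)

theorem bij_add {X : Type} [AddCommGroup X] [Module R X] {Y : Type} [AddCommGroup Y]
    [Module R Y] (hX : Chain R X) (hY : Chain R Y) {f g : X →ₗ[R] Y}
    (hf : Function.Injective f) (hf' : ¬ Function.Surjective f) (hg : Function.Surjective g)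
    (hg' : ¬ Function.Injective g) : Function.Bijective (f + g) := by
  constructor
  · have h1 : Function.Injective ((f + g) + (-g)) := by
      have : (f + g) + (-g) = f := by abel
      rw [this]; exact hf
    rcases inj_of_add hX h1 with h | h
    · exact h
    · exfalso; apply hg'
      intro x y hxy
      apply h
      simp [hxy]
  · have h1 : Function.Surjective ((f + g) + (-f)) := by
      have : (f + g) + (-f) = g := by abel
      rw [this]; exact hg
    rcases surj_of_add hY h1 with h | h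
    · exact h
    · exfalso; apply hf'
      intro y
      obtain ⟨x, hx⟩ := h (-y)
      refine ⟨x, ?_⟩
      have : -f x = -y := hx
      exact neg_injective this

/-- the three cases: a bijective combination of a surjective and an injective endomorphism. -/
theorem exists_bij {V : Type} [AddCommGroup V] [Module R V] (hV : Chain R V)
    {A : Type} [AddCommGroup A] [Module R A] {B : Type} [AddCommGroup B] [Module R B]
    (za : A →ₗ[R] V) (zb : B →ₗ[R] V) (ρ : V →ₗ[R] A) (q : V →ₗ[R] B)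
    (h1 : Function.Surjective (za ∘ₗ ρ)) (h2 : Function.Injective (zb ∘ₗ q)) :
    ∃ (ρ' : V →ₗ[R] A) (q' : V →ₗ[R] B), Function.Bijective (za ∘ₗ ρ' + zb ∘ₗ q') := by
  by_cases h3 : Function.Injective (za ∘ₗ ρ)
  · exact ⟨ρ, 0, by rw [LinearMap.comp_zero, add_zero]; exact ⟨h3, h1⟩⟩
  by_cases h4 : Function.Surjective (zb ∘ₗ q)
  · exact ⟨0, q, by rw [LinearMap.comp_zero, zero_add]; exact ⟨h2, h4⟩⟩
  refine ⟨ρ, q, ?_⟩
  rw [add_comm]
  exact bij_add hV hV h2 h4 h1 h3

theorem Big.sum {big : ∀ Y : ModuleCat.{0} R, Y → Prop} (hb : Big R big) {Z : ModuleCat.{0} R}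
    {J : Type} (F : Finset J) (f : J → Z) (h : ∀ k ∈ F, ¬ big Z (f k)) :
    ¬ big Z (∑ k ∈ F, f k) := by
  classical
  induction F using Finset.induction_on with
  | empty => simpa using hb.zero Z
  | insert a s ha ih =>
    rw [Finset.sum_insert ha]
    intro hbig
    rcases hb.add _ _ _ hbig with h1 | h1
    · exact h a (Finset.mem_insert_self _ _) h1
    · exact ih (fun k hk => h k (Finset.mem_insert_of_mem hk)) h1

/-- if no component of `x` is big then no image of `x` is big -/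
theorem Big.dec {big : ∀ Y : ModuleCat.{0} R, Y → Prop} (hb : Big R big)
    {P : Type} [AddCommGroup P] [Module R P] {J : Type} [Fintype J] {X : J → ModuleCat.{0} R}
    (d : Dec R P J X) (x : P) (h : ∀ k, ¬ big (X k) (d.pr k x)) (Z : ModuleCat.{0} R)
    (g : P →ₗ[R] Z) : ¬ big Z (g x) := by
  rw [← d.sum x, map_sum]
  apply Big.sum hb
  intro k _ hk
  exact h k (hb.map (X k) Z (g ∘ₗ d.inc k) (d.pr k x) hk)

theorem Chain.of_inj {X : Type} [AddCommGroup X] [Module R X] {Y : Type} [AddCommGroup Y]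
    [Module R Y] {f : X →ₗ[R] Y} (hf : Function.Injective f) (hY : Chain R Y) : Chain R X := by
  intro A B
  rcases hY (A.map f) (B.map f) with h | h
  · exact Or.inl ((Submodule.map_le_map_iff_of_injective hf A B).mp h)
  · exact Or.inr ((Submodule.map_le_map_iff_of_injective hf B A).mp h)

end basics

/-- (REDNM) -/
theorem redNM (l1 : L1Stmt) (l2 : L2Stmt) : RedNMStmt := by
  classical
  intro R _ N _ _ n IH big hbig P _ _ J _ X hcard hU hP3 d E hE x hx i j hij hnz hsq V _ _ hV z hz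
    hzi hzj hq k
  obtain ⟨q, hq⟩ := hq
  obtain ⟨ρ, hρ⟩ := l2 R V (X i) (X j) hV (hU i) (hU j) hsq (z ∘ₗ d.inc i) (z ∘ₗ d.inc j) hzi hzj
  obtain ⟨ρ', q', hu⟩ := exists_bij hV.2 (z ∘ₗ d.inc i) (z ∘ₗ d.inc j) ρ q
    (hzi.comp hρ) (hzj.comp hq)
  -- the inverse of `u`
  let u : V ≃ₗ[R] V := LinearEquiv.ofBijective _ hu
  have hu' : ∀ v, z (d.inc i (ρ' (u.symm v))) + z (d.inc j (q' (u.symm v))) = v := fun v =>
    u.apply_symm_apply v
  let ρ₁ : V →ₗ[R] X i := ρ' ∘ₗ u.symm.toLinearMap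
  let q₁ : V →ₗ[R] X j := q' ∘ₗ u.symm.toLinearMap
  have hu₁ : ∀ v, z (d.inc i (ρ₁ v)) + z (d.inc j (q₁ v)) = v := hu'
  let σ : V →ₗ[R] P := d.inc i ∘ₗ ρ₁ + d.inc j ∘ₗ q₁
  have hσ : ∀ v, σ v = d.inc i (ρ₁ v) + d.inc j (q₁ v) := fun v => rfl
  have hzσ : ∀ v, z (σ v) = v := by
    intro v; rw [hσ, map_add]; exact hu₁ v
  clear_value σ
  let K : Submodule R P := LinearMap.ker z
  let π : P →ₗ[R] K := LinearMap.codRestrict K (LinearMap.id - σ ∘ₗ z) (by
    intro y
    show z (y - σ (z y)) = 0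
    rw [map_sub, hzσ, sub_self])
  have hπ : ∀ y, ((π y : K) : P) = y - σ (z y) := fun y => rfl
  have hπK : ∀ y : K, π (y : P) = y := by
    intro y
    apply Subtype.ext
    have : z (y : P) = 0 := y.2
    rw [hπ, this, map_zero, sub_zero]
  -- the pullback
  let zD : (X i × X j) →ₗ[R] V := LinearMap.coprod (z ∘ₗ d.inc i) (z ∘ₗ d.inc j)
  have hzD : ∀ a b, zD (a, b) = z (d.inc i a) + z (d.inc j b) := fun a b => rfl
  let D : Submodule R (X i × X j) := LinearMap.ker zD
  have hfst : Function.Injective (LinearMap.fst R (X i) (X j) ∘ₗ D.subtype) := by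
    rw [← LinearMap.ker_eq_bot, eq_bot_iff]
    rintro ⟨⟨a, b⟩, hab⟩ h0
    have ha : a = 0 := h0
    subst ha
    have h1 : zD (0, b) = 0 := hab
    rw [hzD, map_zero, map_zero, zero_add] at h1
    have hb : b = 0 := hzj (by rw [map_zero]; exact h1)
    subst hb
    rfl
  have hsnd : Function.Surjective (LinearMap.snd R (X i) (X j) ∘ₗ D.subtype) := by
    intro b
    obtain ⟨a, ha⟩ := hzi (-(z (d.inc j b)))
    refine ⟨⟨(a, b), ?_⟩, rfl⟩
    show zD (a, b) = 0
    rw [hzD]
    have : z (d.inc i a) = -(z (d.inc j b)) := ha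
    rw [this]; abel
  have hDU : Uni R D := by
    refine ⟨?_, Chain.of_inj hfst (hU i).2⟩
    have := (hU j).1
    exact hsnd.nontrivial
  have hDZ : ¬ ZT R N D := by
    rintro ⟨f, hf, hfi⟩
    obtain ⟨l, hl⟩ := l1 R D (X i) (X j) hDU (hU i) (hU j) hsq _ _ hfst hsnd
    exact hnz ⟨(LinearMap.fst R (X i) (X j) ∘ₗ D.subtype) ∘ₗ (f ∘ₗ l),
      HI_left (HI_right hf l) _, hfst.comp (hfi.comp hl)⟩
  -- the new index set
  let F : Finset J := (Finset.univ.erase i).erase j
  have hF : ∀ k, k ∈ F ↔ (k ≠ j ∧ k ≠ i) := by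
    intro k
    simp [F]
  have hjF : j ∈ Finset.univ.erase i := by simp [hij.symm]
  have hcardF : F.card + 1 = n := by
    have h1 : F.card + 1 = (Finset.univ.erase i).card := Finset.card_erase_add_one hjF
    have h2 : (Finset.univ.erase i).card + 1 = (Finset.univ : Finset J).card :=
      Finset.card_erase_add_one (Finset.mem_univ i)
    have h3 : (Finset.univ : Finset J).card = n + 1 := hcard
    omega
  have hsumF : ∀ (f : J → P), ∑ k, f k = f i + (f j + ∑ k ∈ F, f k) := by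
    intro f
    rw [← Finset.add_sum_erase _ f (Finset.mem_univ i), ← Finset.add_sum_erase _ f hjF]
  let X' : Option F → ModuleCat.{0} R := fun o => Option.elim o (ModuleCat.of R D) (fun k => X k.1)
  have hσi : ∀ v, d.pr i (σ v) = ρ₁ v := by
    intro v
    rw [hσ, map_add, d.pr_inc, d.pr_inc_ne i j hij, add_zero]
  have hσj : ∀ v, d.pr j (σ v) = q₁ v := by
    intro v
    rw [hσ, map_add, d.pr_inc, d.pr_inc_ne j i hij.symm, zero_add]
  have hσk : ∀ k ∈ F, ∀ v, d.pr k (σ v) = 0 := by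
    intro k hk v
    rw [hσ, map_add, d.pr_inc_ne k i ((hF k).mp hk).2, d.pr_inc_ne k j ((hF k).mp hk).1, add_zero]
  -- the projection to D
  let pD : P →ₗ[R] D := LinearMap.codRestrict D
    (LinearMap.prod (d.pr i) (d.pr j) - LinearMap.prod ρ₁ q₁ ∘ₗ zD ∘ₗ LinearMap.prod (d.pr i) (d.pr j))
    (by
      intro y
      have hy : z (d.inc i (ρ₁ (zD (d.pr i y, d.pr j y)))) +
        z (d.inc j (q₁ (zD (d.pr i y, d.pr j y)))) = zD (d.pr i y, d.pr j y) := hu₁ _
      show zD ((d.pr i y, d.pr j y) - (ρ₁ (zD (d.pr i y, d.pr j y)), q₁ (zD (d.pr i y, d.pr j y)))) = 0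
      rw [map_sub, hzD (ρ₁ _), hy, sub_self])
  have hpD : ∀ y, ((pD y : D) : X i × X j) = (d.pr i y - ρ₁ (zD (d.pr i y, d.pr j y)),
      d.pr j y - q₁ (zD (d.pr i y, d.pr j y))) := fun y => rfl
  let iD : D →ₗ[R] K := LinearMap.codRestrict K
    ((d.inc i ∘ₗ LinearMap.fst R (X i) (X j) + d.inc j ∘ₗ LinearMap.snd R (X i) (X j)) ∘ₗ D.subtype)
    (by
      rintro ⟨⟨a, b⟩, hab⟩
      show z (d.inc i a + d.inc j b) = 0
      rw [map_add]
      exact hab)
  have hiD : ∀ y : D, ((iD y : K) : P) = d.inc i (y : X i × X j).1 + d.inc j (y : X i × X j).2 :=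
    fun y => rfl
  have hpi_i : ∀ y : D, d.pr i ((iD y : K) : P) = (y : X i × X j).1 := by
    intro y
    rw [hiD, map_add, d.pr_inc, d.pr_inc_ne i j hij, add_zero]
  have hpi_j : ∀ y : D, d.pr j ((iD y : K) : P) = (y : X i × X j).2 := by
    intro y
    rw [hiD, map_add, d.pr_inc, d.pr_inc_ne j i hij.symm, zero_add]
  have h_a : ∀ y : D, pD ((iD y : K) : P) = y := by
    intro y
    apply Subtype.ext
    rw [hpD, hpi_i, hpi_j]
    have h0 : zD ((y : X i × X j).1, (y : X i × X j).2) = 0 := y.2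
    rw [h0, map_zero, map_zero, sub_zero, sub_zero]
  have h_b : ∀ k ∈ F, ∀ y, d.pr k ((π (d.inc k y) : K) : P) = y := by
    intro k hk y
    rw [hπ, map_sub, hσk k hk, d.pr_inc, sub_zero]
  have h_c : ∀ l ∈ F, ∀ y, pD ((π (d.inc l y) : K) : P) = 0 := by
    intro l hl y
    have hi0 : d.pr i ((π (d.inc l y) : K) : P) = -ρ₁ (z (d.inc l y)) := by
      rw [hπ, map_sub, hσi, d.pr_inc_ne i l (Ne.symm ((hF l).mp hl).2), zero_sub]
    have hj0 : d.pr j ((π (d.inc l y) : K) : P) = -q₁ (z (d.inc l y)) := by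
      rw [hπ, map_sub, hσj, d.pr_inc_ne j l (Ne.symm ((hF l).mp hl).1), zero_sub]
    apply Subtype.ext
    rw [hpD, hi0, hj0]
    have h0 : zD (-ρ₁ (z (d.inc l y)), -q₁ (z (d.inc l y))) = -(z (d.inc l y)) := by
      rw [hzD, map_neg, map_neg, map_neg, map_neg, ← neg_add, hu₁]
    rw [h0, map_neg, map_neg, sub_self, sub_self]
    rfl
  have h_d : ∀ k ∈ F, ∀ y, d.pr k ((iD y : K) : P) = 0 := by
    intro k hk y
    rw [hiD, map_add, d.pr_inc_ne k i ((hF k).mp hk).2, d.pr_inc_ne k j ((hF k).mp hk).1, add_zero]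
  have h_e : ∀ k ∈ F, ∀ l, k ≠ l → ∀ y, d.pr k ((π (d.inc l y) : K) : P) = 0 := by
    intro k hk l hkl y
    rw [hπ, map_sub, hσk k hk, d.pr_inc_ne k l hkl, sub_zero]
  have h_f : ∀ y : K, iD (pD (y : P)) + ∑ k : F, π (d.inc k.1 (d.pr k.1 (y : P))) = y := by
    intro y
    rw [Finset.sum_coe_sort F (fun k => π (d.inc k (d.pr k (y : P))))]
    have h1 : iD (pD (y : P)) = π (d.inc i (d.pr i (y : P))) + π (d.inc j (d.pr j (y : P))) := by
      apply Subtype.ext
      rw [hiD, hpD, Submodule.coe_add, hπ, hπ]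
      have h2 : zD (d.pr i (y : P), d.pr j (y : P)) =
        z (d.inc i (d.pr i (y : P))) + z (d.inc j (d.pr j (y : P))) := hzD _ _
      have h3 : σ (z (d.inc i (d.pr i (y : P)))) + σ (z (d.inc j (d.pr j (y : P)))) =
        d.inc i (ρ₁ (zD (d.pr i (y : P), d.pr j (y : P)))) +
          d.inc j (q₁ (zD (d.pr i (y : P), d.pr j (y : P)))) := by
        rw [← map_add, ← h2, hσ]
      show d.inc i (d.pr i (y : P) - ρ₁ (zD (d.pr i (y : P), d.pr j (y : P)))) +
        d.inc j (d.pr j (y : P) - q₁ (zD (d.pr i (y : P), d.pr j (y : P)))) = _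
      rw [map_sub, map_sub]
      have h4 : ∀ a b c e : P, a - c + (b - e) = a + b - (c + e) := by intros; abel
      rw [h4, ← h3, ← h4]
    rw [h1, add_assoc, ← map_sum, ← map_add, ← map_add,
      ← hsumF (fun k => d.inc k (d.pr k (y : P))), d.sum, hπK]
  let d' : Dec R K (Option F) X' :=
    { inc := fun o => match o with
        | none => iD
        | some k => π ∘ₗ d.inc k.1
      pr := fun o => match o with
        | none => pD ∘ₗ K.subtype
        | some k => d.pr k.1 ∘ₗ K.subtype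
      pr_inc := by
        rintro (_ | k) y
        · exact h_a y
        · exact h_b k.1 k.2 y
      pr_inc_ne := by
        rintro (_ | k) (_ | l) hkl y
        · exact absurd rfl hkl
        · exact h_c l.1 l.2 y
        · exact h_d k.1 k.2 y
        · exact h_e k.1 k.2 l.1 (fun h => hkl (congrArg some (Subtype.ext h))) y
      sum := by
        intro y
        rw [Fintype.sum_option]
        exact h_f y }
  let E' : K →ₗ[R] K := π ∘ₗ E ∘ₗ K.subtype
  have hE' : E' ∈ HI R N K K := HI_left (HI_right hE _) _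
  have hxK : x ∈ K := hz
  have hE'x : E' ⟨x, hxK⟩ = ⟨x, hxK⟩ := by
    show π (E x) = ⟨x, hxK⟩
    rw [hx]
    exact hπK ⟨x, hxK⟩
  have key := IH big hbig K (Option F) X' (by simp [hcardF]) (by
    rintro (_ | k)
    · exact hDU
    · exact hU k.1) (by
    rintro (_ | k)
    · intro h; exact absurd h hDZ
    · exact hP3 k.1) d' E' hE' ⟨x, hxK⟩ hE'x
  exact Big.dec hbig d' ⟨x, hxK⟩ key (X k) (d.pr k ∘ₗ K.subtype)

end H87

end SER
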